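import Pool.Agent.Y253.Qr.Ana

set_option autoImplicit false

namespace Pool.Agent.Results.MP_b13893_an.RadiusAllReals

open Pool.Agent.Y253.Qr

/-- The `q`-deformation `x ↦ [x]_q` of the real numbers exists and is unique, and for every real `x`
the radius of convergence of `[x]_q` is at least `(3 - √5) / 2`. -/
theorem result :
    (∃! F : ℝ → LaurentSeries ℚ, IsQDeformation F) ∧
      ∀ F : ℝ → LaurentSeries ℚ, IsQDeformation F →
        ∀ x : ℝ, ENNReal.ofReal ((3 - √5) / 2) ≤ radius (F x) :=
  ⟨existsUnique, fun _ hF x => radius_ge hF x⟩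

end Pool.Agent.Results.MP_b13893_an.RadiusAllReals
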